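import Pool.Agent.SHP.HW

/-!
# Project HHZ: definitions

`a_n ≤ μ^n exp (C n^{3/7})` for every `n` on the square and on the triangular lattice.

All words are read from the fold vertex to the right (first coordinate = column).  `RB t k`: the walk stays in
the columns `≥ 0`, and its last step enters the column `k` for the first time (a reversed bridge).  `CB t k`:
the walk stays in the columns `0, ..., k` and ends in the column `k`.  A fold is a pair of `RB t h₁` and
`CB t h₂` which meets only at the start.  A level `k ≥ 1` is a renewal level of `l` if `l = u ++ v`, `u ∈ RB t k`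
and `v` stays in the columns `≥ 0`: the walk crosses the gap between the columns `k - 1` and `k` exactly once.
The key of `u ∈ RB t k` is the sum of the second coordinates of the end points of its last edge.
-/

namespace Pool.Agent.HHZ

open Pool.Agent.SHP
open scoped ENNReal NNReal

/-- All prefixes have nonnegative first coordinate. -/
def NN (l : List (ℤ × ℤ)) : Prop := ∀ u v : List (ℤ × ℤ), l = u ++ v → 0 ≤ u.sum.1

/-- Reversed bridges of width `k`. -/
def RB (t : Bool) (k : ℕ) : Set (List (ℤ × ℤ)) := {l | l.reverse ∈ BT t k}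

/-- Walks in the columns `0, ..., k` from the column `0` to the column `k`. -/
def CB (t : Bool) (k : ℕ) : Set (List (ℤ × ℤ)) :=
  {l | l ∈ saws t ∧ (∀ u v : List (ℤ × ℤ), l = u ++ v → 0 ≤ u.sum.1 ∧ 0 ≤ v.sum.1) ∧
    l.sum.1 = (k : ℤ)}

/-- Folds. -/
def FP (t : Bool) (h₁ h₂ : ℕ) : Set (List (ℤ × ℤ) × List (ℤ × ℤ)) :=
  {p | p.1 ∈ RB t h₁ ∧ p.2 ∈ CB t h₂ ∧ Disj p.1 p.2}

/-- The level `k` is a renewal level. -/
def Ren (t : Bool) (l : List (ℤ × ℤ)) (k : ℕ) : Prop :=
  ∃ u v : List (ℤ × ℤ), l = u ++ v ∧ u ∈ RB t k ∧ NN v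

/-- Pairs without a common renewal level `≥ 1`. -/
def NR (t : Bool) (s d : ℕ) : Set (List (ℤ × ℤ) × List (ℤ × ℤ)) :=
  {p | p.1 ∈ RB t (d + s) ∧ p.2 ∈ CB t d ∧ ∀ k, 1 ≤ k → ¬ (Ren t p.1 k ∧ Ren t p.2 k)}

/-- The key of the last edge. -/
def key (u : List (ℤ × ℤ)) : ℤ := u.dropLast.sum.2 + u.sum.2

/-- `a` is above `b` at all common renewal levels `≥ 1`. -/
def Ab (t : Bool) (a b : List (ℤ × ℤ)) : Prop :=
  ∀ k : ℕ, 1 ≤ k → ∀ u v u' v' : List (ℤ × ℤ), a = u ++ v → b = u' ++ v' → u ∈ RB t k →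
    u' ∈ RB t k → NN v → NN v' → key u' < key u

/-- Ordered pairs of reversed bridges of the same width. -/
def WP (t : Bool) (i : ℕ) : Set (List (ℤ × ℤ) × List (ℤ × ℤ)) :=
  {p | p.1 ∈ RB t i ∧ p.2 ∈ RB t i ∧ Ab t p.1 p.2}

end Pool.Agent.HHZ
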