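import Pool.Agent.HHZ.Defs

/-!
# Project HHZ: masses of sets and injections
-/

namespace Pool.Agent.HHZ

open Pool.Agent.SHP Finset
open scoped ENNReal NNReal

/-- The mass of a set with a length function. -/
noncomputable def G {α : Type*} (S : Set α) (len : α → ℕ) (z : ℝ≥0) : ℝ≥0∞ :=
  ∑' a : S, (z : ℝ≥0∞) ^ len a

/-- Length of a pair of words. -/
def len2 (p : List (ℤ × ℤ) × List (ℤ × ℤ)) : ℕ := p.1.length + p.2.length

theorem gf_eq_G (A : Set (List (ℤ × ℤ))) (z : ℝ≥0) : gf A z = G A List.length z := rfl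

theorem gf2_eq_G (A : Set (List (ℤ × ℤ) × List (ℤ × ℤ))) (z : ℝ≥0) : gf2 A z = G A len2 z := rfl

theorem G_prod {α β : Type*} (S : Set α) (T : Set β) (l : α → ℕ) (l' : β → ℕ) (z : ℝ≥0) :
    G (S ×ˢ T) (fun p => l p.1 + l' p.2) z = G S l z * G T l' z := by
  unfold G
  rw [← (Equiv.Set.prod S T).symm.tsum_eq, ENNReal.tsum_prod', ← ENNReal.tsum_mul_right]
  refine tsum_congr fun a => ?_
  rw [← ENNReal.tsum_mul_left]
  refine tsum_congr fun b => ?_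
  show (z : ℝ≥0∞) ^ (l (a : α) + l' (b : β)) = _
  rw [pow_add]

/-- A label gives a multiplicity. -/
theorem G_sum_le_label {α β C : Type*} [Fintype C] (F : Finset ℕ) (S : ℕ → Set α) (T : Set β)
    (l : ℕ → α → ℕ) (l' : β → ℕ) (z : ℝ≥0) (f : ℕ → α → β) (lab : ℕ → α → C)
    (hf : ∀ i ∈ F, ∀ a ∈ S i, f i a ∈ T) (hl : ∀ i ∈ F, ∀ a ∈ S i, l' (f i a) = l i a)
    (hinj : ∀ i ∈ F, ∀ a ∈ S i, ∀ j ∈ F, ∀ b ∈ S j, f i a = f j b → lab i a = lab j b →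
      i = j ∧ a = b) :
    ∑ i ∈ F, G (S i) (l i) z ≤ (Fintype.card C : ℝ≥0∞) * G T l' z := by
  classical
  have h1 : ∑ i ∈ F, G (S i) (l i) z =
      ∑' x : (Σ i : F, S (i : ℕ)), (z : ℝ≥0∞) ^ (l (x.1 : ℕ) (x.2 : α)) := by
    rw [ENNReal.tsum_sigma', tsum_fintype, ← Finset.sum_coe_sort F]
    rfl
  have h2 : (Fintype.card C : ℝ≥0∞) * G T l' z =
      ∑' y : C × T, (z : ℝ≥0∞) ^ (l' (y.2 : β)) := by
    rw [ENNReal.tsum_prod']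
    simp only [tsum_fintype, sum_const, card_univ, nsmul_eq_mul]
    rfl
  rw [h1, h2]
  let g : (Σ i : F, S (i : ℕ)) → C × T := fun x =>
    (lab (x.1 : ℕ) (x.2 : α), ⟨f (x.1 : ℕ) (x.2 : α), hf x.1 x.1.2 x.2 x.2.2⟩)
  have hg : Function.Injective g := by
    rintro ⟨⟨i, hi⟩, ⟨a, ha⟩⟩ ⟨⟨j, hj⟩, ⟨b, hb⟩⟩ h
    have e1 : lab i a = lab j b := congrArg Prod.fst h
    have e2 : f i a = f j b := congrArg (fun y : C × T => (y.2 : β)) h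
    obtain ⟨e3, e4⟩ := hinj i hi a ha j hj b hb e2 e1
    subst e3
    subst e4
    rfl
  refine le_trans (le_of_eq ?_) (ENNReal.tsum_comp_le_tsum_of_injective hg
    (fun y : C × T => (z : ℝ≥0∞) ^ (l' (y.2 : β))))
  refine tsum_congr fun x => ?_
  show _ = (z : ℝ≥0∞) ^ (l' (f (x.1 : ℕ) (x.2 : α)))
  rw [hl x.1 x.1.2 x.2 x.2.2]

theorem G_sum_le {α β : Type*} (F : Finset ℕ) (S : ℕ → Set α) (T : Set β)
    (l : ℕ → α → ℕ) (l' : β → ℕ) (z : ℝ≥0) (f : ℕ → α → β)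
    (hf : ∀ i ∈ F, ∀ a ∈ S i, f i a ∈ T) (hl : ∀ i ∈ F, ∀ a ∈ S i, l' (f i a) = l i a)
    (hinj : ∀ i ∈ F, ∀ a ∈ S i, ∀ j ∈ F, ∀ b ∈ S j, f i a = f j b → i = j ∧ a = b) :
    ∑ i ∈ F, G (S i) (l i) z ≤ G T l' z := by
  have := G_sum_le_label (C := Unit) F S T l l' z f (fun _ _ => ()) hf hl
    (fun i hi a ha j hj b hb h _ => hinj i hi a ha j hj b hb h)
  simpa using this

theorem G_mono {α : Type*} {S T : Set α} (h : S ⊆ T) (l : α → ℕ) (z : ℝ≥0) : G S l z ≤ G T l z :=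
  ENNReal.tsum_mono_subtype (fun a : α => (z : ℝ≥0∞) ^ l a) h

/-- Covering of a set by finitely many images. -/
theorem G_le_sum {α β : Type*} (F : Finset ℕ) (S : ℕ → Set α) (T : Set β)
    (l : ℕ → α → ℕ) (l' : β → ℕ) (z : ℝ≥0) (f : ℕ → α → β)
    (hT : ∀ y ∈ T, ∃ i ∈ F, ∃ a ∈ S i, f i a = y)
    (hl : ∀ i ∈ F, ∀ a ∈ S i, l' (f i a) = l i a) :
    G T l' z ≤ ∑ i ∈ F, G (S i) (l i) z := by
  classical
  have h1 : ∑ i ∈ F, G (S i) (l i) z =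
      ∑' x : (Σ i : F, S (i : ℕ)), (z : ℝ≥0∞) ^ (l (x.1 : ℕ) (x.2 : α)) := by
    rw [ENNReal.tsum_sigma', tsum_fintype, ← Finset.sum_coe_sort F]
    rfl
  rw [h1]
  have hex : ∀ y : T, ∃ x : (Σ i : F, S (i : ℕ)), f (x.1 : ℕ) (x.2 : α) = y := by
    rintro ⟨y, hy⟩
    obtain ⟨i, hi, a, ha, h⟩ := hT y hy
    exact ⟨⟨⟨i, hi⟩, ⟨a, ha⟩⟩, h⟩
  choose g hg using hex
  have hgi : Function.Injective g := by
    intro y y' h
    apply Subtype.ext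
    rw [← hg y, ← hg y', h]
  unfold G
  refine le_trans (le_of_eq ?_) (ENNReal.tsum_comp_le_tsum_of_injective hgi
    (fun x : (Σ i : F, S (i : ℕ)) => (z : ℝ≥0∞) ^ (l (x.1 : ℕ) (x.2 : α))))
  refine tsum_congr fun y => ?_
  rw [← hl (g y).1 (g y).1.2 (g y).2 (g y).2.2, hg y]

end Pool.Agent.HHZ
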