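import Mathlib

/-!
Project HHZ, analysis: a Gronwall inequality with gaps, weight `C0 / √(1 - ζ)` for every gap.

With `q = 1 - ε = ζ ^ 2`, `ε = v ^ 4`, `A = 1 / v ^ 3`, `Λ t = A (1 - q ^ t)`; the sum of the kernels is at most
`C / v ^ 3`.
-/

namespace Pool.Agent.HHZ

open Finset
open scoped ENNReal

/-- Discrete Gronwall inequality. -/
theorem gron_disc (K : ℝ) (Z κ : ℕ → ℝ) (hκ : ∀ n, 0 ≤ κ n) (N : ℕ)
    (h : ∀ n ≤ N, Z n ≤ K + ∑ b ∈ range n, κ b * Z b) :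
    ∀ n ≤ N, Z n ≤ K * ∏ b ∈ range n, (1 + κ b) := by
  have key : ∀ n, n ≤ N → K + ∑ b ∈ range n, κ b * Z b ≤ K * ∏ b ∈ range n, (1 + κ b) := by
    intro n
    induction n with
    | zero => intro _; simp
    | succ n ih =>
      intro hn
      have h1 := ih (by omega)
      have h2 := (h n (by omega)).trans h1
      rw [sum_range_succ, prod_range_succ]
      have h3 := mul_le_mul_of_nonneg_left h2 (hκ n)
      nlinarith
  intro n hn
  exact (h n hn).trans (key n hn)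

/-- `m ε q^{m/2} ≤ 1 - q^m` with `q = ζ²`. -/
theorem gron_one_sub {ζ : ℝ} (h0 : 0 < ζ) (h1 : ζ < 1) (m : ℕ) :
    (m : ℝ) * (1 - ζ ^ 2) * ζ ^ m ≤ 1 - (ζ ^ 2) ^ m := by
  induction m with
  | zero => simp
  | succ m ih =>
    have hp : 0 < ζ ^ m := pow_pos h0 m
    have hp1 : ζ ^ m ≤ 1 := pow_le_one₀ h0.le h1.le
    have e1 : (ζ ^ 2) ^ m = ζ ^ m * ζ ^ m := by rw [← pow_mul, two_mul, pow_add]
    have e2 : (ζ ^ 2) ^ (m + 1) = ζ ^ m * ζ ^ m * ζ ^ 2 := by rw [pow_succ, e1]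
    have e3 : ζ ^ (m + 1) = ζ ^ m * ζ := pow_succ _ _
    rw [e1] at ih
    rw [e2, e3]
    push_cast
    set p := ζ ^ m with hpd
    have h2 : (m : ℝ) * (1 - ζ ^ 2) * p * ζ ≤ (1 - p * p) * ζ :=
      mul_le_mul_of_nonneg_right ih h0.le
    have h3 : 0 ≤ (1 - ζ) * ((1 - p) ^ 2 + (1 - ζ) * p * (2 + ζ - p)) := by
      have a1 : 0 ≤ 1 - ζ := by linarith
      have a2 : 0 ≤ 2 + ζ - p := by linarith
      positivity
    have h4 : (1 - ζ) * ((1 - p) ^ 2 + (1 - ζ) * p * (2 + ζ - p)) =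
        1 - p * p * ζ ^ 2 - ((1 - p * p) * ζ + (1 - ζ ^ 2) * p * ζ) := by ring
    have h5 : ((m : ℝ) + 1) * (1 - ζ ^ 2) * (p * ζ) =
        (m : ℝ) * (1 - ζ ^ 2) * p * ζ + (1 - ζ ^ 2) * p * ζ := by ring
    linarith

/-- `r³ e^{-r²} ≤ 1`. -/
theorem gron_exp (r : ℝ) : r ^ 3 * Real.exp (-r ^ 2) ≤ 1 := by
  have h1 : r ^ 3 ≤ Real.exp (r ^ 2) := by
    have h2 := Real.quadratic_le_exp_of_nonneg (sq_nonneg r)
    have h3 : r ^ 3 ≤ 1 + r ^ 2 + (r ^ 2) ^ 2 / 2 := by nlinarith [sq_nonneg (r ^ 2 - r), sq_nonneg r, sq_nonneg (r - 1)]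
    exact h3.trans h2
  rw [Real.exp_neg]
  rw [mul_inv_le_iff₀ (Real.exp_pos _)]
  linarith

/-- Telescoping bound for `∑ min (1, (v m)^{-3/2})`. -/
theorem gron_tel {v : ℝ} (hv : 0 < v) (n : ℕ) :
    ∑ s ∈ range n, 1 / Real.sqrt (1 + v * ((s : ℝ) + 1)) ^ 3 ≤ 2 / v := by
  have key : ∀ s : ℕ, 1 / Real.sqrt (1 + v * ((s : ℝ) + 1)) ^ 3 ≤
      2 / v * (1 / Real.sqrt (1 + v * (s : ℝ)) - 1 / Real.sqrt (1 + v * ((s + 1 : ℕ) : ℝ))) := by
    intro s
    have hs : (0 : ℝ) ≤ s := Nat.cast_nonneg s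
    set a := Real.sqrt (1 + v * (s : ℝ)) with ha
    set b := Real.sqrt (1 + v * ((s : ℝ) + 1)) with hb
    have ha2 : a ^ 2 = 1 + v * s := Real.sq_sqrt (by positivity)
    have hb2 : b ^ 2 = 1 + v * (s + 1) := Real.sq_sqrt (by positivity)
    have ha0 : 0 < a := Real.sqrt_pos.2 (by positivity)
    have hb0 : 0 < b := Real.sqrt_pos.2 (by positivity)
    have hab : a ≤ b := Real.sqrt_le_sqrt (by nlinarith)
    have hba : b ^ 2 - a ^ 2 = v := by rw [ha2, hb2]; ring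
    push_cast
    rw [← hb]
    have h1 : 2 / v * (1 / a - 1 / b) = 2 / (a * b * (a + b)) := by
      rw [← hba]
      have : b ^ 2 - a ^ 2 ≠ 0 := by rw [hba]; exact hv.ne'
      have h3 : b - a ≠ 0 := by
        intro h
        apply this
        have : b = a := by linarith
        rw [this]; ring
      field_simp
      ring
    rw [h1, div_le_div_iff₀ (by positivity) (by positivity)]
    nlinarith [mul_pos ha0 hb0, mul_nonneg (mul_nonneg ha0.le hb0.le) (sub_nonneg.2 hab),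
      mul_nonneg (mul_nonneg hb0.le hb0.le) (sub_nonneg.2 hab)]
  calc ∑ s ∈ range n, 1 / Real.sqrt (1 + v * ((s : ℝ) + 1)) ^ 3
      ≤ ∑ s ∈ range n, 2 / v * (1 / Real.sqrt (1 + v * (s : ℝ)) -
          1 / Real.sqrt (1 + v * ((s + 1 : ℕ) : ℝ))) := sum_le_sum fun s _ => key s
    _ = 2 / v * (1 / Real.sqrt (1 + v * ((0 : ℕ) : ℝ)) - 1 / Real.sqrt (1 + v * (n : ℝ))) := by
        rw [← mul_sum, sum_range_sub']
    _ ≤ 2 / v * 1 := by
        apply mul_le_mul_of_nonneg_left _ (by positivity)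
        have : 0 ≤ 1 / Real.sqrt (1 + v * (n : ℝ)) := by positivity
        simp only [Nat.cast_zero, mul_zero, add_zero, Real.sqrt_one, div_one]
        linarith
    _ = 2 / v := mul_one _

theorem gron_reorg (f : ℕ → ℕ → ℝ) (hf : ∀ a b, 0 ≤ f a b) {m n : ℕ} (hmn : m ≤ n) :
    ∑ a ∈ range (m + 1), ∑ b ∈ range a, f a b ≤
      ∑ b ∈ range m, ∑ s ∈ range n, f (b + s + 1) b := by
  have h1 : ∑ a ∈ range (m + 1), ∑ b ∈ range a, f a b =
      ∑ b ∈ range m, ∑ a ∈ Ico (b + 1) (m + 1), f a b := by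
    apply sum_comm'
    intro a b
    simp only [mem_range, mem_Ico]
    omega
  rw [h1]
  refine sum_le_sum fun b hb => ?_
  rw [mem_range] at hb
  rw [sum_Ico_eq_sum_range]
  have h2 : ∀ s, f (b + 1 + s) b = f (b + s + 1) b := fun s => by
    congr 1; ring
  simp only [h2]
  exact sum_le_sum_of_subset_of_nonneg (range_mono (by omega)) fun _ _ _ => hf _ _

theorem gron_kernel {v ζ : ℝ} (hv : 0 < v) (h0 : 0 < ζ) (h1 : ζ < 1) (hq : ζ ^ 2 = 1 - v ^ 4)
    (b m : ℕ) (hm : 1 ≤ m) :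
    (ζ ^ 2) ^ (2 * b + m) * Real.exp (-(1 / v ^ 3 * (ζ ^ 2) ^ b * (1 - (ζ ^ 2) ^ m))) ≤
      ζ ^ b * (3 / Real.sqrt (1 + v * m) ^ 3) := by
  have hm0 : (0 : ℝ) < m := by exact_mod_cast hm
  set ρ := ζ ^ b with hρ
  set q := ζ ^ 2 with hqd
  have hρ0 : 0 < ρ := pow_pos h0 b
  have hρ1 : ρ ≤ 1 := pow_le_one₀ h0.le h1.le
  have hq0 : 0 < q := by positivity
  have hq1 : q < 1 := by rw [hqd]; nlinarith
  set Q := q ^ m with hQ
  have hQ0 : 0 < Q := pow_pos hq0 m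
  have hQ1 : Q < 1 := pow_lt_one₀ hq0.le hq1 (by omega)
  have e1 : q ^ (2 * b + m) = ρ * ρ ^ 3 * Q := by
    rw [pow_add, hqd, hρ, hQ, hqd]
    ring
  have e2 : q ^ b = ρ ^ 2 := by rw [hqd, hρ]; ring
  rw [e1, e2]
  set δ := 1 - Q with hδ
  have hδ0 : 0 < δ := by rw [hδ]; linarith
  set X := Real.sqrt (1 / v ^ 3 * δ) with hX
  have hX2 : X ^ 2 = 1 / v ^ 3 * δ := Real.sq_sqrt (by positivity)
  have hX0 : 0 < X := Real.sqrt_pos.2 (by positivity)
  have e3 : 1 / v ^ 3 * ρ ^ 2 * δ = (ρ * X) ^ 2 := by rw [mul_pow, hX2]; ring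
  rw [e3]
  have h2 : ρ ^ 3 * Real.exp (-(ρ * X) ^ 2) ≤ 1 / X ^ 3 := by
    have := gron_exp (ρ * X)
    rw [le_div_iff₀ (by positivity)]
    calc ρ ^ 3 * Real.exp (-(ρ * X) ^ 2) * X ^ 3 = (ρ * X) ^ 3 * Real.exp (-(ρ * X) ^ 2) := by ring
      _ ≤ 1 := this
  have h3 : ρ ^ 3 * Real.exp (-(ρ * X) ^ 2) ≤ 1 := by
    have a1 : ρ ^ 3 ≤ 1 := pow_le_one₀ hρ0.le hρ1
    have a2 : Real.exp (-(ρ * X) ^ 2) ≤ 1 := Real.exp_le_one_iff.2 (by
      have := sq_nonneg (ρ * X)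
      linarith)
    have a3 := (Real.exp_pos (-(ρ * X) ^ 2)).le
    have a4 : 0 < ρ ^ 3 := by positivity
    nlinarith
  set E := Real.exp (-(ρ * X) ^ 2) with hE
  have hgoal : ρ ^ 3 * E * Q ≤ 3 / Real.sqrt (1 + v * m) ^ 3 := by
    set T := Real.sqrt (1 + v * m) with hT
    have hT0 : 0 < T := Real.sqrt_pos.2 (by positivity)
    have hT2 : T ^ 2 = 1 + v * m := Real.sq_sqrt (by positivity)
    rw [le_div_iff₀ (by positivity)]
    by_cases hc : v * m ≤ 1
    · have a1 : T ^ 3 ≤ 3 := by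
        have b1 : T ^ 2 ≤ 2 := by rw [hT2]; linarith
        have b2 : T ≤ 3 / 2 := by nlinarith
        nlinarith
      have a2 : ρ ^ 3 * E * Q ≤ 1 := by
        have : 0 ≤ ρ ^ 3 * E := by positivity
        nlinarith
      have a3 : 0 < T ^ 3 := by positivity
      nlinarith
    · rw [not_le] at hc
      set Y := Real.sqrt (v * m) with hY
      have hY0 : 0 < Y := Real.sqrt_pos.2 (by positivity)
      have hY2 : Y ^ 2 = v * m := Real.sq_sqrt (by positivity)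
      have b1 : Y ^ 2 * ζ ^ m ≤ X ^ 2 := by
        have c1 := gron_one_sub h0 h1 m
        have c2 : (m : ℝ) * (1 - ζ ^ 2) * ζ ^ m ≤ δ := c1
        rw [hX2, hY2]
        have c3 : 1 - ζ ^ 2 = v ^ 4 := by linarith
        rw [c3] at c2
        have c4 : v * m * ζ ^ m = 1 / v ^ 3 * (m * v ^ 4 * ζ ^ m) := by
          field_simp
        rw [c4]
        exact mul_le_mul_of_nonneg_left c2 (by positivity)
      have hz : 0 < ζ ^ m := pow_pos h0 m
      have hz1 : ζ ^ m ≤ 1 := pow_le_one₀ h0.le h1.le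
      have hQz : Q = ζ ^ m * ζ ^ m := by rw [hQ, hqd, ← pow_mul, two_mul, pow_add]
      have b2 : Y ^ 3 * Q ≤ X ^ 3 := by
        apply le_of_sq_le_sq _ (by positivity)
        have c1 : (Y ^ 2 * ζ ^ m) ^ 3 ≤ (X ^ 2) ^ 3 := by gcongr
        have c2 : (Y ^ 3 * Q) ^ 2 = (Y ^ 2 * ζ ^ m) ^ 3 * ζ ^ m := by rw [hQz]; ring
        have c3 : (X ^ 3) ^ 2 = (X ^ 2) ^ 3 := by ring
        rw [c2, c3]
        calc (Y ^ 2 * ζ ^ m) ^ 3 * ζ ^ m ≤ (Y ^ 2 * ζ ^ m) ^ 3 * 1 := by gcongr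
          _ ≤ (X ^ 2) ^ 3 := by rw [mul_one]; exact c1
      have b3 : T ^ 3 ≤ 3 * Y ^ 3 := by
        apply le_of_sq_le_sq _ (by positivity)
        have c1 : T ^ 2 ≤ 2 * Y ^ 2 := by rw [hT2, hY2]; linarith
        have c2 : (T ^ 3) ^ 2 = (T ^ 2) ^ 3 := by ring
        have c3 : (3 * Y ^ 3) ^ 2 = 9 * (Y ^ 2) ^ 3 := by ring
        rw [c2, c3]
        calc (T ^ 2) ^ 3 ≤ (2 * Y ^ 2) ^ 3 := by gcongr
          _ = 8 * (Y ^ 2) ^ 3 := by ring
          _ ≤ 9 * (Y ^ 2) ^ 3 := by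
              have : 0 ≤ (Y ^ 2) ^ 3 := by positivity
              linarith
      calc ρ ^ 3 * E * Q * T ^ 3 ≤ 1 / X ^ 3 * Q * (3 * Y ^ 3) := by gcongr
        _ = 3 * (Y ^ 3 * Q) / X ^ 3 := by ring
        _ ≤ 3 * X ^ 3 / X ^ 3 := by gcongr
        _ = 3 := by
            have : X ^ 3 ≠ 0 := by positivity
            field_simp
  calc ρ * ρ ^ 3 * Q * E = ρ * (ρ ^ 3 * E * Q) := by ring
    _ ≤ ρ * (3 / Real.sqrt (1 + v * m) ^ 3) := mul_le_mul_of_nonneg_left hgoal hρ0.le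

theorem gron_core {v ζ : ℝ} (hv : 0 < v) (h0 : 0 < ζ) (h1 : ζ < 1) (hq : ζ ^ 2 = 1 - v ^ 4)
    {K M : ℝ} (hK : 0 ≤ K) (hM : 0 ≤ M) (J : ℕ → ℕ → ℝ) (hJ : ∀ a b, 0 ≤ J a b)
    (hJM : ∀ s D : ℕ, ∑ t ∈ range D, J (t + s + 1) t * ζ ^ t ≤ M) (S : ℕ → ℝ) (hS : ∀ n, 0 ≤ S n)
    (hrec : ∀ n, S n ≤ K + ∑ a ∈ range (n + 1), ∑ b ∈ range a, J a b * (ζ ^ 2) ^ (a + b) * S b)
    (n : ℕ) : S n ≤ K * Real.exp (1 / v ^ 3 + 6 * M / v) := by
  set q := ζ ^ 2 with hqd
  have hq0 : 0 < q := by positivity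
  have hq1 : q < 1 := by rw [hqd]; nlinarith
  set A := 1 / v ^ 3 with hA
  have hA0 : 0 < A := by positivity
  set Λ : ℕ → ℝ := fun t => A * (1 - q ^ t) with hΛ
  have hΛ0 : ∀ t, 0 ≤ Λ t := fun t => by
    have : q ^ t ≤ 1 := pow_le_one₀ hq0.le hq1.le
    exact mul_nonneg hA0.le (by linarith)
  have hΛA : ∀ t, Λ t ≤ A := fun t => by
    have : 0 < q ^ t := pow_pos hq0 t
    simp only [hΛ]
    nlinarith
  have hΛm : ∀ a b, a ≤ b → Λ a ≤ Λ b := fun a b hab => by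
    have : q ^ b ≤ q ^ a := pow_le_pow_of_le_one hq0.le hq1.le hab
    simp only [hΛ]
    apply mul_le_mul_of_nonneg_left _ hA0.le
    linarith
  set Z : ℕ → ℝ := fun m => S m * Real.exp (-Λ m) with hZ
  have hZ0 : ∀ m, 0 ≤ Z m := fun m => mul_nonneg (hS m) (Real.exp_pos _).le
  set F : ℕ → ℕ → ℝ := fun a b => J a b * q ^ (a + b) * Real.exp (-(Λ a - Λ b)) * Z b with hF
  have hF0 : ∀ a b, 0 ≤ F a b := fun a b => by
    have := hJ a b
    have := hZ0 b
    simp only [hF]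
    positivity
  set κ : ℕ → ℝ := fun b => ∑ s ∈ range n,
    J (b + s + 1) b * (q ^ (2 * b + (s + 1)) * Real.exp (-(Λ (b + s + 1) - Λ b))) with hκ
  have hκ0 : ∀ b, 0 ≤ κ b := fun b => sum_nonneg fun s _ => by
    have := hJ (b + s + 1) b
    positivity
  have hZrec : ∀ m ≤ n, Z m ≤ K + ∑ b ∈ range m, κ b * Z b := by
    intro m hm
    have a1 : Z m ≤ K + ∑ a ∈ range (m + 1), ∑ b ∈ range a, F a b := by
      have b1 : Z m ≤ (K + ∑ a ∈ range (m + 1), ∑ b ∈ range a, J a b * q ^ (a + b) * S b) *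
          Real.exp (-Λ m) := mul_le_mul_of_nonneg_right (hrec m) (Real.exp_pos _).le
      refine b1.trans ?_
      rw [add_mul]
      apply add_le_add
      · have : Real.exp (-Λ m) ≤ 1 := Real.exp_le_one_iff.2 (by have := hΛ0 m; linarith)
        nlinarith
      · rw [sum_mul]
        refine sum_le_sum fun a ha => ?_
        rw [sum_mul]
        refine sum_le_sum fun b _ => ?_
        rw [mem_range] at ha
        have c1 : Real.exp (-Λ m) ≤ Real.exp (-Λ a) :=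
          Real.exp_le_exp.2 (neg_le_neg (hΛm a m (by omega)))
        have c2 : F a b = J a b * q ^ (a + b) * S b * Real.exp (-Λ a) := by
          simp only [hF, hZ]
          have : Real.exp (-Λ a) = Real.exp (-(Λ a - Λ b)) * Real.exp (-Λ b) := by
            rw [← Real.exp_add]; congr 1; ring
          rw [this]; ring
        rw [c2]
        have := hJ a b
        have := hS b
        gcongr
    refine a1.trans (add_le_add le_rfl ?_)
    refine (gron_reorg F hF0 hm).trans (le_of_eq ?_)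
    refine sum_congr rfl fun b _ => ?_
    simp only [hκ, hF]
    rw [sum_mul]
    refine sum_congr rfl fun s _ => ?_
    have : b + s + 1 + b = 2 * b + (s + 1) := by ring
    rw [this]
    ring
  have h2 := gron_disc K Z κ hκ0 n hZrec n le_rfl
  have h3 : ∏ b ∈ range n, (1 + κ b) ≤ Real.exp (∑ b ∈ range n, κ b) := by
    rw [Real.exp_sum]
    refine prod_le_prod (fun b _ => by have := hκ0 b; linarith) fun b _ => ?_
    have := Real.add_one_le_exp (κ b)
    linarith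
  have h4 : ∑ b ∈ range n, κ b ≤ 6 * M / v := by
    simp only [hκ]
    rw [sum_comm]
    calc ∑ s ∈ range n, ∑ b ∈ range n,
          J (b + s + 1) b * (q ^ (2 * b + (s + 1)) * Real.exp (-(Λ (b + s + 1) - Λ b)))
        ≤ ∑ s ∈ range n, ∑ b ∈ range n,
          J (b + s + 1) b * (ζ ^ b * (3 / Real.sqrt (1 + v * ((s : ℝ) + 1)) ^ 3)) := by
          refine sum_le_sum fun s _ => sum_le_sum fun b _ => ?_
          apply mul_le_mul_of_nonneg_left _ (hJ _ _)
          have e1 : Λ (b + s + 1) - Λ b = A * q ^ b * (1 - q ^ (s + 1)) := by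
            simp only [hΛ]
            rw [add_assoc, pow_add]
            ring
          rw [e1]
          have := gron_kernel hv h0 h1 hq b (s + 1) (by omega)
          rw [← hqd, ← hA] at this
          push_cast at this
          exact this
      _ = ∑ s ∈ range n, (∑ b ∈ range n, J (b + s + 1) b * ζ ^ b) *
          (3 * (1 / Real.sqrt (1 + v * ((s : ℝ) + 1)) ^ 3)) := by
          refine sum_congr rfl fun s _ => ?_
          rw [sum_mul]
          refine sum_congr rfl fun b _ => ?_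
          ring
      _ ≤ ∑ s ∈ range n, M * (3 * (1 / Real.sqrt (1 + v * ((s : ℝ) + 1)) ^ 3)) := by
          refine sum_le_sum fun s _ => ?_
          exact mul_le_mul_of_nonneg_right (hJM s n) (by positivity)
      _ = 3 * M * ∑ s ∈ range n, 1 / Real.sqrt (1 + v * ((s : ℝ) + 1)) ^ 3 := by
          rw [mul_sum]
          refine sum_congr rfl fun s _ => ?_
          ring
      _ ≤ 3 * M * (2 / v) := mul_le_mul_of_nonneg_left (gron_tel hv n) (by positivity)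
      _ = 6 * M / v := by ring
  have h5 : S n = Z n * Real.exp (Λ n) := by
    simp only [hZ]
    rw [mul_assoc, ← Real.exp_add]
    simp
  rw [h5]
  calc Z n * Real.exp (Λ n) ≤ (K * Real.exp (6 * M / v)) * Real.exp A := by
        apply mul_le_mul _ (Real.exp_le_exp.2 (hΛA n)) (Real.exp_pos _).le (by positivity)
        refine h2.trans (mul_le_mul_of_nonneg_left ?_ hK)
        exact h3.trans (Real.exp_le_exp.2 h4)
    _ = K * Real.exp (A + 6 * M / v) := by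
        rw [mul_assoc, ← Real.exp_add]
        congr 2
        ring

end Pool.Agent.HHZ
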