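import Pool.Agent.HHZ.Defs
import Pool.Agent.SHP.Side

/-!
# Project HHZ: two disjoint legs of a fold keep their order at all common renewal levels

The parity of the number of steps of one leg below a vertex of the other leg is constant along the other leg
(`SHP.side_const`); at the far end point of a renewal edge it says whether this leg is above or below.
-/

set_option autoImplicit false

namespace Pool.Agent.HHZ

open Pool.Agent.SHP

variable {t : Bool}

private theorem Order_sum {k : ℕ} {l : List (ℤ × ℤ)} (h : l ∈ RB t k) : l.sum.1 = k := by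
  have := h.2
  rwa [List.sum_reverse] at this

private theorem Order_pre {k : ℕ} {l u v : List (ℤ × ℤ)} (h : l ∈ RB t k) (hl : l = u ++ v) :
    0 ≤ u.sum.1 := by
  have h1 := h.1.2 v.reverse u.reverse (by rw [hl, List.reverse_append])
  rwa [List.sum_reverse] at h1

private theorem Order_lt {k : ℕ} {l u v : List (ℤ × ℤ)} (h : l ∈ RB t k) (hl : l = u ++ v)
    (hv : v ≠ []) : u.sum.1 < k := by
  have h1 := h.1.1.2 v.reverse u.reverse (by rw [hl, List.reverse_append]) (by simpa using hv)
  rw [List.sum_reverse] at h1
  have h2 := Order_sum h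
  rw [hl, List.sum_append, Prod.fst_add] at h2
  omega

private theorem Order_steps {k : ℕ} {l : List (ℤ × ℤ)} (h : l ∈ RB t k) : ∀ s ∈ l, s ∈ steps t :=
  fun s hs => h.1.1.1.1 s (List.mem_reverse.2 hs)

private theorem Order_sub {s : ℤ × ℤ} (h : s ∈ steps t) : s ∈ steps true := by
  cases t
  · simp only [steps, Bool.false_eq_true, if_false, if_true, Finset.mem_insert,
      Finset.mem_singleton] at h ⊢
    tauto
  · exact h

private theorem Order_ne {k : ℕ} {l : List (ℤ × ℤ)} (h : l ∈ RB t k) (hk : 1 ≤ k) : l ≠ [] := by
  rintro rfl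
  have := Order_sum h
  simp at this
  omega

/-- the last step of a word of `RB` -/
private theorem Order_last {k : ℕ} {u : List (ℤ × ℤ)} (hu : u ∈ RB t k) (hk : 1 ≤ k) :
    u.dropLast.sum.1 = k - 1 ∧ (key u = 2 * u.sum.2 ∨ key u = 2 * u.sum.2 + 1) := by
  have hne := Order_ne hu hk
  have hsplit : u = u.dropLast ++ [u.getLast hne] := (List.dropLast_append_getLast hne).symm
  have h1 := Order_lt hu hsplit (by simp)
  have h2 : u.sum = u.dropLast.sum + u.getLast hne := by
    conv_lhs => rw [hsplit]
    rw [List.sum_append, List.sum_singleton]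
  have h3 := Order_sum hu
  have h4 := Order_sub (Order_steps hu _ (List.getLast_mem hne))
  set e := u.getLast hne with he
  have h5 : u.sum.1 = u.dropLast.sum.1 + e.1 := by rw [h2]; rfl
  have h6 : u.sum.2 = u.dropLast.sum.2 + e.2 := by rw [h2]; rfl
  unfold key
  simp only [steps, if_true, Finset.mem_insert, Finset.mem_singleton, Prod.ext_iff] at h4
  omega

/-- the path of a word, prolonged by a horizontal ray -/
private noncomputable def path' (b : List (ℤ × ℤ)) (n : ℕ) : ℤ × ℤ :=
  if n ≤ b.length then (b.take n).sum else b.sum + ((n : ℤ) - b.length, 0)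

private theorem path_le {b : List (ℤ × ℤ)} {n : ℕ} (h : n ≤ b.length) :
    path' b n = (b.take n).sum := if_pos h

private theorem path_ge {b : List (ℤ × ℤ)} {n : ℕ} (h : b.length ≤ n) :
    path' b n = b.sum + ((n : ℤ) - b.length, 0) := by
  unfold path'
  split_ifs with h1
  · have : n = b.length := le_antisymm h1 h
    subst this
    simp
  · rfl

private theorem path_step {b : List (ℤ × ℤ)} (hb : ∀ s ∈ b, s ∈ steps t) (n : ℕ) :
    path' b (n + 1) - path' b n ∈ steps true := by
  by_cases h : n < b.length
  · rw [path_le (Nat.succ_le_of_lt h), path_le h.le, List.sum_take_succ b n h]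
    rw [add_sub_cancel_left]
    exact Order_sub (hb _ (List.getElem_mem h))
  · rw [not_lt] at h
    rw [path_ge (h.trans (Nat.le_succ n)), path_ge h]
    have : b.sum + (((n + 1 : ℕ) : ℤ) - b.length, 0) - (b.sum + ((n : ℤ) - b.length, 0)) =
        ((1, 0) : ℤ × ℤ) := by
      apply Prod.ext
      · simp only [Prod.fst_sub, Prod.fst_add]
        push_cast
        ring
      · simp
    rw [this]
    simp [steps]

private theorem path_tendsto (b : List (ℤ × ℤ)) :
    Filter.Tendsto (fun n => (path' b n).1) Filter.atTop Filter.atTop := by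
  rw [Filter.tendsto_atTop]
  intro c
  rw [Filter.eventually_atTop]
  refine ⟨b.length + (c - b.sum.1).toNat, fun n hn => ?_⟩
  rw [path_ge (by omega)]
  simp only [Prod.fst_add]
  omega

private theorem Order_changes {v : ℕ → Prop} {A B : Set ℕ} (hA : A.Finite) (hB : B.Finite)
    (hd : Disjoint A B) (hc : ∀ i, ¬ (v i ↔ v (i + 1)) ↔ i ∈ A ∪ B) (h0 : ¬ v 0)
    (h1 : ∀ᶠ n in Filter.atTop, ¬ v n) : Even A.ncard ↔ Even B.ncard := by
  classical
  have hAB : (A ∪ B).Finite := hA.union hB
  obtain ⟨M, hM⟩ := hAB.bddAbove
  obtain ⟨n, hn1, hn2⟩ := (h1.and (Filter.eventually_gt_atTop M)).exists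
  have h2 := parity_changes v n
  have h3 : (Finset.range n).filter (fun i => ¬ (v i ↔ v (i + 1))) = hAB.toFinset := by
    ext i
    rw [Finset.mem_filter, hc, Set.Finite.mem_toFinset, Finset.mem_range]
    constructor
    · exact fun h => h.2
    · exact fun h => ⟨lt_of_le_of_lt (hM h) hn2, h⟩
  rw [h3, ← Set.ncard_eq_toFinset_card _ hAB, Set.ncard_union_eq hd hA hB, Nat.even_add] at h2
  exact h2.2 ⟨fun h => absurd h h0, fun h => absurd h hn1⟩

private theorem Order_dir {s : ℤ × ℤ} (h : s ∈ steps true) :
    (s.1 = 1 ∧ s.2 = 0) ∨ (s.1 = -1 ∧ s.2 = 0) ∨ (s.1 = 0 ∧ s.2 = 1) ∨ (s.1 = 0 ∧ s.2 = -1) ∨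
      (s.1 = 1 ∧ s.2 = -1) ∨ (s.1 = -1 ∧ s.2 = 1) := by
  simp only [steps, if_true, Finset.mem_insert, Finset.mem_singleton] at h
  rcases h with h | h | h | h | h | h <;> subst h <;> simp

/-- the path crosses the gap below a renewal level once -/
private theorem Order_cross {i k : ℕ} (hk : 1 ≤ k) {b u' v' : List (ℤ × ℤ)} (hb : b ∈ RB t i)
    (hbu : b = u' ++ v') (hu' : u' ∈ RB t k) (hv' : NN v') (n : ℕ) :
    (n + 1 < u'.length → (path' b n).1 < k ∧ (path' b (n + 1)).1 < k) ∧
    (n + 1 = u'.length → (path' b n).1 = k - 1 ∧ path' b (n + 1) = u'.sum) ∧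
    (u'.length ≤ n → (k : ℤ) ≤ (path' b n).1 ∧ (k : ℤ) ≤ (path' b (n + 1)).1) := by
  have hlen : u'.length ≤ b.length := by rw [hbu, List.length_append]; omega
  have hlt : ∀ m, m < u'.length → (path' b m).1 < k := by
    intro m hm
    rw [path_le (by omega)]
    have h1 : b.take m = u'.take m := by
      rw [hbu, List.take_append_of_le_length hm.le]
    rw [h1]
    refine Order_lt hu' (List.take_append_drop m u').symm ?_
    intro h2
    have := congrArg List.length h2
    rw [List.length_drop, List.length_nil] at this
    omega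
  have hge : ∀ m, u'.length ≤ m → (k : ℤ) ≤ (path' b m).1 := by
    intro m hm
    by_cases hmb : m ≤ b.length
    · rw [path_le hmb]
      have h1 : b.take m = u' ++ v'.take (m - u'.length) := by
        rw [hbu, List.take_append, List.take_of_length_le hm]
      rw [h1, List.sum_append, Prod.fst_add, Order_sum hu']
      have := hv' _ _ (List.take_append_drop (m - u'.length) v').symm
      omega
    · rw [path_ge (by omega)]
      have h1 : b.sum = u'.sum + v'.sum := by rw [hbu, List.sum_append]
      have h2 := hv' v' [] (by simp)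
      have h3 := Order_sum hu'
      simp only [Prod.fst_add, h1]
      omega
  refine ⟨fun h => ⟨hlt _ (by omega), hlt _ h⟩, fun h => ?_, fun h => ⟨hge _ h, hge _ (by omega)⟩⟩
  constructor
  · rw [path_le (by omega)]
    have h1 : b.take n = u'.dropLast := by
      rw [hbu, List.take_append_of_le_length (by omega), List.dropLast_eq_take]
      congr 1
      omega
    rw [h1]
    exact (Order_last hu' hk).1
  · rw [path_le (by omega), h, hbu, List.take_left]

/-- the parity at the far end of the crossing edge -/
private theorem Order_level {i k : ℕ} (hk : 1 ≤ k) {b u' v' : List (ℤ × ℤ)} (hb : b ∈ RB t i)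
    (hbu : b = u' ++ v') (hu' : u' ∈ RB t k) (hv' : NN v') {p : ℤ × ℤ} (hp1 : p.1 = k)
    (hp : ∀ n, path' b n ≠ p) :
    Even ({n | StepIn (path' b) p.1 (2 * p.2) n}.ncard) ↔ u'.sum.2 < p.2 := by
  have hst := path_step (Order_steps hb)
  have htt := path_tendsto b
  have hup : 0 < u'.length := List.length_pos_iff.2 (Order_ne hu' hk)
  have hoff : ∀ n, (path' b n).1 ≠ k ∨ (path' b n).2 ≠ p.2 := by
    intro n
    by_contra hc
    push Not at hc
    exact hp n (Prod.ext (hc.1.trans hp1.symm) hc.2)
  have hune : u'.sum.2 ≠ p.2 := by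
    have h1 := hoff u'.length
    have h2 := (Order_cross hk hb hbu hu' hv' (u'.length - 1)).2.1 (by omega)
    rw [show u'.length - 1 + 1 = u'.length by omega] at h2
    rw [h2.2, Order_sum hu'] at h1
    rcases h1 with h1 | h1
    · exact absurd rfl h1
    · exact h1
  have h3 : Even ({n | StepIn (path' b) p.1 (2 * p.2) n}.ncard) ↔
      Even ({n | n + 1 = u'.length ∧ p.2 < u'.sum.2}.ncard) := by
    refine Order_changes (v := fun n => (path' b n).1 = k ∧ p.2 < (path' b n).2)
      (finite_stepIn htt _ _) ?_ ?_ ?_ ?_ ?_
    · exact (Set.finite_singleton (u'.length - 1)).subset (fun n hn => by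
        have := hn.1
        rw [Set.mem_singleton_iff]
        omega)
    · rw [Set.disjoint_left]
      intro n hn hn'
      have h4 := (Order_cross hk hb hbu hu' hv' n).2.1 hn'.1
      have h5 := hn.1
      rw [hp1, h4.1, h4.2, Order_sum hu'] at h5
      omega
    · intro n
      simp only [StepIn, Set.mem_ofPred_eq, Set.mem_union]
      have h4 := Order_dir (hst n)
      simp only [Prod.fst_sub, Prod.snd_sub] at h4
      have h5 := hoff n
      have h6 := hoff (n + 1)
      obtain ⟨c1, c2, c3⟩ := Order_cross hk hb hbu hu' hv' n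
      rw [hp1]
      rcases lt_trichotomy (n + 1) u'.length with h7 | h7 | h7
      · have := c1 h7
        omega
      · obtain ⟨d1, d2⟩ := c2 h7
        have d3 := congrArg Prod.fst d2
        have d4 := congrArg Prod.snd d2
        rw [Order_sum hu'] at d3
        omega
      · have := c3 (by omega)
        omega
    · intro h
      have h4 : path' b 0 = 0 := by rw [path_le (Nat.zero_le _)]; simp
      rw [h4] at h
      have := h.1
      simp at this
      omega
    · filter_upwards [htt.eventually_gt_atTop (k : ℤ)] with n hn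
      intro h
      have := h.1
      omega
  rw [h3]
  by_cases hlt : p.2 < u'.sum.2
  · have h4 : {n | n + 1 = u'.length ∧ p.2 < u'.sum.2} = {u'.length - 1} := by
      ext n
      simp only [Set.mem_ofPred_eq, Set.mem_singleton_iff]
      constructor
      · rintro ⟨h5, _⟩
        omega
      · intro h5
        exact ⟨by omega, hlt⟩
    rw [h4, Set.ncard_singleton]
    simp only [Nat.not_even_one, false_iff]
    omega
  · have h4 : {n | n + 1 = u'.length ∧ p.2 < u'.sum.2} = ∅ := by
      ext n
      simp only [Set.mem_ofPred_eq, Set.mem_empty_iff_false, iff_false]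
      rintro ⟨_, h5⟩
      exact hlt h5
    rw [h4, Set.ncard_empty]
    simp only [Even.zero, true_iff]
    omega

/-- Two words of `RB` which meet only at the start keep their order at all common renewal levels. -/
theorem order {i : ℕ} (_hi : 1 ≤ i) {a b : List (ℤ × ℤ)} (ha : a ∈ RB t i) (hb : b ∈ RB t i)
    (hd : Disj a b) : Ab t a b ∨ Ab t b a := by
  have hast := Order_steps ha
  have hoff : ∀ j, 1 ≤ j → j ≤ a.length → ∀ n, path' b n ≠ (a.take j).sum := by
    intro j hj1 hj n h
    by_cases hn : n ≤ b.length
    · rw [path_le hn] at h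
      have h1 := (hd (a.take j) (b.take n) (a.drop j) (b.drop n) (List.take_append_drop _ _).symm
        (List.take_append_drop _ _).symm h.symm).1
      have h2 := congrArg List.length h1
      rw [List.length_take, List.length_nil] at h2
      omega
    · rw [path_ge (by omega)] at h
      have h1 := congrArg Prod.fst h
      simp only [Prod.fst_add] at h1
      rw [Order_sum hb] at h1
      have h2 : (a.take j).sum.1 ≤ i := by
        by_cases hd' : a.drop j = []
        · have h3 : a.take j = a := by
            conv_rhs => rw [← List.take_append_drop j a, hd', List.append_nil]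
          rw [h3, Order_sum ha]
        · exact (Order_lt ha (List.take_append_drop j a).symm hd').le
      omega
  have hconst : ∀ j, 1 ≤ j → j ≤ a.length →
      (Even ({n | StepIn (path' b) (a.take j).sum.1 (2 * (a.take j).sum.2) n}.ncard) ↔
        Even ({n | StepIn (path' b) (a.take 1).sum.1 (2 * (a.take 1).sum.2) n}.ncard)) := by
    intro j hj1
    induction j, hj1 using Nat.le_induction with
    | base => exact fun _ => Iff.rfl
    | succ j hj1 ih =>
      intro hj
      rw [← ih (by omega)]
      refine (side_const (path_step (Order_steps hb)) (path_tendsto b) ?_ (hoff j hj1 (by omega))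
        (hoff (j + 1) (by omega) hj) ?_ ?_).symm
      · rw [List.sum_take_succ a j hj, add_sub_cancel_left]
        exact Order_sub (hast _ (List.getElem_mem hj))
      · rw [path_le (Nat.zero_le _)]
        simpa using Order_pre ha (List.take_append_drop j a).symm
      · rw [path_le (Nat.zero_le _)]
        simpa using Order_pre ha (List.take_append_drop (j + 1) a).symm
  have key1 : ∀ k : ℕ, 1 ≤ k → ∀ u v u' v' : List (ℤ × ℤ), a = u ++ v → b = u' ++ v' →
      u ∈ RB t k → u' ∈ RB t k → NN v → NN v' →
      (Even ({n | StepIn (path' b) (a.take 1).sum.1 (2 * (a.take 1).sum.2) n}.ncard) ↔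
        u'.sum.2 < u.sum.2) ∧ u'.sum.2 ≠ u.sum.2 := by
    intro k hk u v u' v' hau hbu hu hu' hv hv'
    have hul : 1 ≤ u.length := List.length_pos_iff.2 (Order_ne hu hk)
    have hul2 : u.length ≤ a.length := by rw [hau, List.length_append]; omega
    have htk : a.take u.length = u := by rw [hau, List.take_left]
    have h1 := hconst u.length hul hul2
    have h2 := hoff u.length hul hul2
    rw [htk] at h1 h2
    have h3 := Order_level hk hb hbu hu' hv' (Order_sum hu) h2
    refine ⟨h1.symm.trans h3, ?_⟩
    have h4 := h2 u'.length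
    rw [path_le (by rw [hbu, List.length_append]; omega), hbu, List.take_left] at h4
    intro h5
    exact h4 (Prod.ext ((Order_sum hu').trans (Order_sum hu).symm) h5)
  by_cases hs : Even ({n | StepIn (path' b) (a.take 1).sum.1 (2 * (a.take 1).sum.2) n}.ncard)
  · left
    intro k hk u v u' v' hau hbu hu hu' hv hv'
    have h1 := (key1 k hk u v u' v' hau hbu hu hu' hv hv').1.1 hs
    have h2 := (Order_last hu hk).2
    have h3 := (Order_last hu' hk).2
    omega
  · right
    intro k hk u' v' u v hbu hau hu' hu hv' hv
    have h1 := key1 k hk u v u' v' hau hbu hu hu' hv hv'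
    have h4 : ¬ u'.sum.2 < u.sum.2 := fun h => hs (h1.1.2 h)
    have h2 := (Order_last hu hk).2
    have h3 := (Order_last hu' hk).2
    have h5 := h1.2
    omega

end Pool.Agent.HHZ
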