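import Pool.Agent.HHZ.Defs

/-!
# Project HHZ: cutting and glueing words
-/

namespace Pool.Agent.HHZ

open Pool.Agent.SHP
open scoped ENNReal NNReal

variable {t : Bool}

theorem mem_RB_iff {k : ℕ} {l : List (ℤ × ℤ)} : l ∈ RB t k ↔ l ∈ saws t ∧ NN l ∧
    (∀ u v : List (ℤ × ℤ), l = u ++ v → v ≠ [] → 0 < v.sum.1) ∧ l.sum.1 = (k : ℤ) := by
  have hsaw : l.reverse ∈ saws t ↔ l ∈ saws t := by
    constructor
    · intro h
      have h2 : l.reverse.reverse ∈ saws t := by
        refine ⟨fun s hs => h.1 s (List.mem_reverse.mp hs), ?_⟩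
        intro u v w huvw hv
        have h1 : l.reverse = w.reverse ++ (v.reverse ++ u.reverse) := by
          rw [← List.reverse_reverse l.reverse, huvw]
          simp
        have h2 := h.2 _ _ _ h1 (by rw [List.sum_reverse]; exact hv)
        simpa using h2
      rwa [List.reverse_reverse] at h2
    · intro h
      refine ⟨fun s hs => h.1 s (List.mem_reverse.mp hs), ?_⟩
      intro u v w huvw hv
      have h1 : l = w.reverse ++ (v.reverse ++ u.reverse) := by
        rw [← List.reverse_reverse l, huvw]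
        simp
      have h2 := h.2 _ _ _ h1 (by rw [List.sum_reverse]; exact hv)
      simpa using h2
  constructor
  · rintro ⟨⟨⟨h1, h2⟩, h3⟩, h4⟩
    refine ⟨hsaw.1 h1, ?_, ?_, by rwa [List.sum_reverse] at h4⟩
    · intro u v huv
      have := h3 v.reverse u.reverse (by rw [huv]; simp)
      rwa [List.sum_reverse] at this
    · intro u v huv hv
      have := h2 v.reverse u.reverse (by rw [huv]; simp) (by simpa using hv)
      rwa [List.sum_reverse] at this
  · rintro ⟨h1, h2, h3, h4⟩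
    refine ⟨⟨⟨hsaw.2 h1, ?_⟩, ?_⟩, by rwa [List.sum_reverse]⟩
    · intro u v huv hu
      have e : l = v.reverse ++ u.reverse := by
        rw [← List.reverse_reverse l, huv]; simp
      have := h3 _ _ e (by simpa using hu)
      rwa [List.sum_reverse] at this
    · intro u v huv
      have e : l = v.reverse ++ u.reverse := by
        rw [← List.reverse_reverse l, huv]; simp
      have := h2 _ _ e
      rwa [List.sum_reverse] at this

theorem mem_CB_iff {k : ℕ} {l : List (ℤ × ℤ)} : l ∈ CB t k ↔ l ∈ saws t ∧ NN l ∧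
    (∀ u v : List (ℤ × ℤ), l = u ++ v → 0 ≤ v.sum.1) ∧ l.sum.1 = (k : ℤ) := by
  constructor
  · rintro ⟨h1, h2, h3⟩
    exact ⟨h1, fun u v h => (h2 u v h).1, fun u v h => (h2 u v h).2, h3⟩
  · rintro ⟨h1, h2, h3, h4⟩
    exact ⟨h1, fun u v h => ⟨h2 u v h, h3 u v h⟩, h4⟩

theorem RB_subset_CB {k : ℕ} {l : List (ℤ × ℤ)} (h : l ∈ RB t k) : l ∈ CB t k := by
  rw [mem_RB_iff] at h
  rw [mem_CB_iff]
  refine ⟨h.1, h.2.1, fun u v huv => ?_, h.2.2.2⟩
  by_cases hv : v = []
  · subst hv; simp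
  · exact (h.2.2.1 u v huv hv).le

theorem NN_nil : NN [] := by
  intro u v h
  have := h.symm
  simp at this
  rw [this.1]; simp

theorem nil_mem_RB : ([] : List (ℤ × ℤ)) ∈ RB t 0 := by
  show ([] : List (ℤ × ℤ)).reverse ∈ BT t 0
  exact ⟨nil_mem_bridges, by simp⟩

theorem RB_zero {l : List (ℤ × ℤ)} (h : l ∈ RB t 0) : l = [] := by
  rw [mem_RB_iff] at h
  by_contra hne
  have := h.2.2.1 [] l rfl hne
  rw [h.2.2.2] at this
  simp at this

/-- A prefix which is followed by a walk to the right. -/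
theorem NN_append {u v : List (ℤ × ℤ)} (hu : NN u) (h : 0 ≤ u.sum.1) (hv : NN v) :
    NN (u ++ v) := by
  intro a b hab
  rcases List.append_eq_append_iff.1 hab with ⟨d, hd, hd'⟩ | ⟨d, hd, hd'⟩
  · have := hv d b hd'
    rw [hd, words_sum_fst]
    omega
  · exact hu a d hd

theorem NN_prefix {u v : List (ℤ × ℤ)} (h : NN (u ++ v)) : NN u := by
  intro a b hab
  exact h a (b ++ v) (by rw [hab]; simp)

/-- Glueing of self-avoiding words: all nonempty suffixes of `u` are positive and all prefixes of `v` are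
nonnegative. -/
theorem saws_glue {u v : List (ℤ × ℤ)} (hu : u ∈ saws t)
    (hu' : ∀ a b : List (ℤ × ℤ), u = a ++ b → b ≠ [] → 0 < b.sum.1) (hv : v ∈ saws t)
    (hv' : NN v) : u ++ v ∈ saws t := by
  refine ⟨fun s hs => ?_, fun a b c h hb => ?_⟩
  · rcases List.mem_append.1 hs with hs | hs
    · exact hu.1 s hs
    · exact hv.1 s hs
  · rcases List.append_eq_append_iff.1 h with ⟨d, hd, hd'⟩ | ⟨d, hd, hd'⟩
    · exact hv.2 d b c hd' hb
    · rcases List.append_eq_append_iff.1 hd' with ⟨x, hx, hx'⟩ | ⟨x, hx, hx'⟩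
      · exact hu.2 a b x (by rw [hd, hx]) hb
      · by_cases hdn : d = []
        · subst hdn
          have hxb : b = x := by simpa using hx
          subst hxb
          exact hv.2 [] b c (by simpa using hx') hb
        · exfalso
          have h1 : 0 < d.sum.1 := hu' a d hd hdn
          have h2 : 0 ≤ x.sum.1 := hv' x c hx'
          have h3 : b.sum.1 = d.sum.1 + x.sum.1 := by rw [hx, words_sum_fst]
          rw [hb] at h3
          simp only [Prod.fst_zero] at h3
          omega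

theorem RB_append {i j : ℕ} {u v : List (ℤ × ℤ)} (hu : u ∈ RB t i) (hv : v ∈ RB t j) :
    u ++ v ∈ RB t (i + j) := by
  rw [mem_RB_iff] at hu hv ⊢
  obtain ⟨a1, a2, a3, a4⟩ := hu
  obtain ⟨b1, b2, b3, b4⟩ := hv
  refine ⟨saws_glue a1 a3 b1 b2, NN_append a2 (by omega) b2, ?_, ?_⟩
  · intro a b hab hb
    rcases List.append_eq_append_iff.1 hab with ⟨d, hd, hd'⟩ | ⟨d, hd, hd'⟩
    · exact b3 d b hd' hb
    · rw [hd', words_sum_fst]
      by_cases hdn : d = []
      · subst hdn
        have : v ≠ [] := by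
          intro h
          apply hb
          rw [hd', h]; rfl
        have h1 := b3 [] v rfl this
        simp only [List.sum_nil, Prod.fst_zero]
        omega
      · have h1 := a3 a d hd hdn
        omega
  · rw [words_sum_fst, a4, b4]
    push_cast
    ring

theorem RB_CB_append {i j : ℕ} {u v : List (ℤ × ℤ)} (hu : u ∈ RB t i) (hv : v ∈ CB t j) :
    u ++ v ∈ CB t (i + j) := by
  rw [mem_RB_iff] at hu
  rw [mem_CB_iff] at hv ⊢
  obtain ⟨a1, a2, a3, a4⟩ := hu
  obtain ⟨b1, b2, b3, b4⟩ := hv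
  refine ⟨saws_glue a1 a3 b1 b2, NN_append a2 (by omega) b2, ?_, ?_⟩
  · intro a b hab
    rcases List.append_eq_append_iff.1 hab with ⟨d, hd, hd'⟩ | ⟨d, hd, hd'⟩
    · exact b3 d b hd'
    · rw [hd', words_sum_fst]
      by_cases hdn : d = []
      · subst hdn
        simp only [List.sum_nil, Prod.fst_zero]
        omega
      · have h1 := a3 a d hd hdn
        omega
  · rw [words_sum_fst, a4, b4]
    push_cast
    ring

/-- The part behind a renewal level. -/
theorem RB_cut {n k : ℕ} {u v : List (ℤ × ℤ)} (h : u ++ v ∈ RB t n) (hu : u ∈ RB t k)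
    (hv : NN v) (hk : k ≤ n) : v ∈ RB t (n - k) := by
  rw [mem_RB_iff] at h hu ⊢
  obtain ⟨a1, a2, a3, a4⟩ := h
  refine ⟨?_, hv, ?_, ?_⟩
  · exact saws_infix (u := u) (v := v) (w := []) (by simpa using a1)
  · intro a b hab hb
    exact a3 (u ++ a) b (by rw [hab]; simp) hb
  · rw [words_sum_fst, hu.2.2.2] at a4
    push_cast [hk]
    omega

theorem CB_cut {n k : ℕ} {u v : List (ℤ × ℤ)} (h : u ++ v ∈ CB t n) (hu : u ∈ RB t k)
    (hv : NN v) (hk : k ≤ n) : v ∈ CB t (n - k) := by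
  rw [mem_CB_iff] at h ⊢
  rw [mem_RB_iff] at hu
  obtain ⟨a1, a2, a3, a4⟩ := h
  refine ⟨?_, hv, ?_, ?_⟩
  · exact saws_infix (u := u) (v := v) (w := []) (by simpa using a1)
  · intro a b hab
    exact a3 (u ++ a) b (by rw [hab]; simp)
  · rw [words_sum_fst, hu.2.2.2] at a4
    push_cast [hk]
    omega

/-- Renewal levels of a walk which ends in its last column are at most the last column. -/
theorem Ren_le {n k : ℕ} {l : List (ℤ × ℤ)} (hl : l.sum.1 = (n : ℤ)) (h : Ren t l k) : k ≤ n := by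
  obtain ⟨u, v, huv, hu, hv⟩ := h
  rw [mem_RB_iff] at hu
  have h1 := hv v [] (by simp)
  rw [huv, words_sum_fst, hu.2.2.2] at hl
  omega

/-- The cut is unique. -/
theorem cut_unique {k : ℕ} {u v u' v' : List (ℤ × ℤ)} (h : u ++ v = u' ++ v')
    (hu : u ∈ RB t k) (hu' : u' ∈ RB t k) : u = u' ∧ v = v' := by
  rw [mem_RB_iff] at hu hu'
  rcases List.append_eq_append_iff.1 h with ⟨d, hd, hd'⟩ | ⟨d, hd, hd'⟩
  · by_cases hdn : d = []
    · subst hdn
      exact ⟨by simpa using hd.symm, by simpa using hd'⟩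
    · exfalso
      have h1 := hu'.2.2.1 u d hd hdn
      have h2 := hu'.2.2.2
      rw [hd, words_sum_fst, hu.2.2.2] at h2
      omega
  · by_cases hdn : d = []
    · subst hdn
      exact ⟨by simpa using hd, by simpa using hd'.symm⟩
    · exfalso
      have h1 := hu.2.2.1 u' d hd hdn
      have h2 := hu.2.2.2
      rw [hd, words_sum_fst, hu'.2.2.2] at h2
      omega

/-- A renewal level `i + j` behind the renewal level `i`. -/
theorem cut_ge {i j : ℕ} {a l u v : List (ℤ × ℤ)} (ha : a ∈ RB t i) (hl : NN l)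
    (h : a ++ l = u ++ v) (hu : u ∈ RB t (i + j)) :
    ∃ w : List (ℤ × ℤ), u = a ++ w ∧ l = w ++ v ∧ w ∈ RB t j := by
  have hu0 := hu
  rw [mem_RB_iff] at ha hu
  rcases List.append_eq_append_iff.1 h with ⟨d, hd, hd'⟩ | ⟨d, hd, hd'⟩
  · refine ⟨d, hd, hd', ?_⟩
    rw [mem_RB_iff]
    refine ⟨?_, ?_, ?_, ?_⟩
    · exact saws_infix (u := a) (v := d) (w := []) (by rw [List.append_nil, ← hd]; exact hu.1)
    · intro x y hxy
      exact hl x (y ++ v) (by rw [hd', hxy]; simp)
    · intro x y hxy hy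
      exact hu.2.2.1 (a ++ x) y (by rw [hd, hxy]; simp) hy
    · have := hu.2.2.2
      rw [hd, words_sum_fst, ha.2.2.2] at this
      push_cast at this
      omega
  · by_cases hdn : d = []
    · subst hdn
      have hau : a = u := by simpa using hd
      have hj : j = 0 := by
        have h1 := ha.2.2.2
        rw [hau, hu.2.2.2] at h1
        push_cast at h1
        omega
      subst hj
      refine ⟨[], by simp [hau], by simpa using hd'.symm, nil_mem_RB⟩
    · exfalso
      have h1 := ha.2.2.1 u d hd hdn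
      have h2 := ha.2.2.2
      rw [hd, words_sum_fst, hu.2.2.2] at h2
      push_cast at h2
      omega

theorem Ren_append_iff {i j : ℕ} {a l : List (ℤ × ℤ)} (ha : a ∈ RB t i) (hl : NN l) :
    Ren t (a ++ l) (i + j) ↔ Ren t l j := by
  constructor
  · rintro ⟨u, v, huv, hu, hv⟩
    obtain ⟨w, -, h2, h3⟩ := cut_ge ha hl huv hu
    exact ⟨w, v, h2, h3, hv⟩
  · rintro ⟨w, v, rfl, hw, hv⟩
    exact ⟨a ++ w, v, by simp, RB_append ha hw, hv⟩

/-- A renewal level `k ≤ i` in front of the renewal level `i`. -/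
theorem cut_le {i k : ℕ} (hk : k ≤ i) {a l u v : List (ℤ × ℤ)} (ha : a ∈ RB t i)
    (h : a ++ l = u ++ v) (hu : u ∈ RB t k) (hv : NN v) :
    ∃ w : List (ℤ × ℤ), a = u ++ w ∧ v = w ++ l ∧ NN w := by
  rw [mem_RB_iff] at ha hu
  rcases List.append_eq_append_iff.1 h with ⟨d, hd, hd'⟩ | ⟨d, hd, hd'⟩
  · by_cases hdn : d = []
    · subst hdn
      refine ⟨[], by simpa using hd.symm, by simpa using hd'.symm, NN_nil⟩
    · exfalso
      have h1 := hu.2.2.1 a d hd hdn
      have h2 := hu.2.2.2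
      rw [hd, words_sum_fst, ha.2.2.2] at h2
      omega
  · exact ⟨d, hd, hd', NN_prefix (hd' ▸ hv)⟩

theorem NN_of_RB {k : ℕ} {l : List (ℤ × ℤ)} (h : l ∈ RB t k) : NN l := (mem_RB_iff.1 h).2.1

theorem NN_of_CB {k : ℕ} {l : List (ℤ × ℤ)} (h : l ∈ CB t k) : NN l := (mem_CB_iff.1 h).2.1

theorem fst_of_RB {k : ℕ} {l : List (ℤ × ℤ)} (h : l ∈ RB t k) : l.sum.1 = (k : ℤ) :=
  (mem_RB_iff.1 h).2.2.2

theorem fst_of_CB {k : ℕ} {l : List (ℤ × ℤ)} (h : l ∈ CB t k) : l.sum.1 = (k : ℤ) :=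
  (mem_CB_iff.1 h).2.2.2

end Pool.Agent.HHZ
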